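import Pool.Agent.Work.MP_240aa8_pr.RotMeas

set_option autoImplicit false

open MeasureTheory ProbabilityTheory

namespace Pool.Agent.Results.MP_240aa8_pr.RotationInvariant

/-- Graph distance of the vertices `a`, `b` of the `n`-cycle with vertex set `ZMod n`: the shorter
of the two arcs between them. -/
def cycleDist {n : ℕ} (a b : ZMod n) : ℕ := min (a - b).val (b - a).val

/-- The random process `X` indexed by the vertices of the `n`-cycle is a `k`-dependent proper
colouring with colours `Fin q`: almost surely neighbours have different colours, and the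
restrictions of `X` to sets of vertices at distance greater than `k` are independent. -/
structure DependentColoring (k q n : ℕ) {Ω : Type} [MeasurableSpace Ω] (P : Measure Ω)
    (X : ZMod n → Ω → Fin q) : Prop where
  measurable : ∀ v, Measurable (X v)
  proper : ∀ᵐ ω ∂P, ∀ v, X v ω ≠ X (v + 1) ω
  dependent : ∀ A B : Set (ZMod n), (∀ a ∈ A, ∀ b ∈ B, k < cycleDist a b) →
    IndepFun (fun ω (a : A) => X a ω) (fun ω (b : B) => X b ω) P

/-- The law of `X` does not change when a permutation of the colours is applied. -/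
def ColorSymmetric {q n : ℕ} {Ω : Type} [MeasurableSpace Ω] (P : Measure Ω)
    (X : ZMod n → Ω → Fin q) : Prop :=
  ∀ σ : Equiv.Perm (Fin q), P.map (fun ω v => σ (X v ω)) = P.map (fun ω v => X v ω)

/-- The law of `X` does not change when the cycle is rotated. -/
def RotationInvariant {q n : ℕ} {Ω : Type} [MeasurableSpace Ω] (P : Measure Ω)
    (X : ZMod n → Ω → Fin q) : Prop :=
  P.map (fun ω v => X (v + 1) ω) = P.map (fun ω v => X v ω)

/-- For every pair `(k, q)` with `k ≥ 1, q ≥ 5` or `k ≥ 2, q ≥ 4` or `k ≥ 3, q ≥ 3` and every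
`n ≥ 3` there is a `k`-dependent proper `q`-colouring of the `n`-cycle whose law is invariant under
all permutations of the colours and under all rotations of the cycle. -/
theorem result (k q : ℕ) (hkq : (1 ≤ k ∧ 5 ≤ q) ∨ (2 ≤ k ∧ 4 ≤ q) ∨ (3 ≤ k ∧ 3 ≤ q)) (n : ℕ)
    (hn : 3 ≤ n) : ∃ (Ω : Type) (_ : MeasurableSpace Ω) (P : Measure Ω) (X : ZMod n → Ω → Fin q),
      IsProbabilityMeasure P ∧ DependentColoring k q n P X ∧ ColorSymmetric P X ∧
        RotationInvariant P X := by
  obtain ⟨m, rfl⟩ : ∃ m, n = m + 1 := ⟨n - 1, by omega⟩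
  have hm : 2 ≤ m := by omega
  obtain ⟨w, hw, hr⟩ := Pool.Agent.Work.MP_240aa8_pr.all_cases hkq hm
  obtain ⟨μ, h1, h2, h3, h4, h5⟩ := Pool.Agent.Work.MP_240aa8_pr.exists_measure_rot hw hr
  refine ⟨Fin (m + 1) → Fin q, inferInstance, μ, fun v x => x v, h1, ⟨?_, ?_, ?_⟩, ?_, ?_⟩
  · exact fun v => measurable_pi_apply _
  · filter_upwards [h2] with x hx
    have key : ∀ v : Fin (m + 1), (SimpleGraph.cycleGraph (m + 1)).Adj v (v + 1) := by
      obtain ⟨r, rfl⟩ : ∃ r, m = r + 1 := ⟨m - 1, by omega⟩
      intro v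
      rw [SimpleGraph.cycleGraph_adj]
      right
      exact add_sub_cancel_left v 1
    exact fun v => hx v _ (key v)
  · intro A B hAB
    refine h4 A B fun a ha b hb => ?_
    exact lt_of_lt_of_le (hAB a ha b hb) (Pool.Agent.Work.MP_240aa8_pr.cdist_le_dist hm a b)
  · intro σ
    have e1 : μ.map (fun (x : Fin (m + 1) → Fin q) (v : ZMod (m + 1)) => x v) = μ := Measure.map_id
    have e2 := h3 σ
    rw [e1]
    exact e2
  · have e1 : μ.map (fun (x : Fin (m + 1) → Fin q) (v : ZMod (m + 1)) => x v) = μ := Measure.map_id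
    unfold RotationInvariant
    rw [e1]
    exact h5

end Pool.Agent.Results.MP_240aa8_pr.RotationInvariant
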